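import Mathlib

set_option autoImplicit false

open Set Topology Cardinal

namespace Pool.Agent.Results.MP_d81239_gt.DenseLindelof

universe u

/-- The Lindelöf number: the least infinite cardinal `κ` such that every open cover has a
subcover of cardinality at most `κ`. -/
noncomputable def lind (Z : Type u) [TopologicalSpace Z] : Cardinal.{u} :=
  sInf {κ : Cardinal.{u} | ℵ₀ ≤ κ ∧ ∀ 𝒰 : Set (Set Z), (∀ U ∈ 𝒰, IsOpen U) → ⋃₀ 𝒰 = Set.univ →
    ∃ 𝒱 ⊆ 𝒰, #𝒱 ≤ κ ∧ ⋃₀ 𝒱 = Set.univ}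

/-- Monotone normality, as in the problem file. -/
def MonNormal (X : Type u) [TopologicalSpace X] : Prop :=
  T1Space X ∧ ∃ H : X → Set X → Set X,
    (∀ x U, IsOpen U → x ∈ U → IsOpen (H x U) ∧ x ∈ H x U ∧ H x U ⊆ U) ∧
    ∀ x U y V, IsOpen U → x ∈ U → IsOpen V → y ∈ V → (H x U ∩ H y V).Nonempty → x ∈ V ∨ y ∈ U

lemma step2 {X : Type u} [TopologicalSpace X] [T1Space X] (H : X → Set X → Set X)
    (h1 : ∀ x U, IsOpen U → x ∈ U → IsOpen (H x U) ∧ x ∈ H x U ∧ H x U ⊆ U)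
    (h2 : ∀ x U y V, IsOpen U → x ∈ U → IsOpen V → y ∈ V → (H x U ∩ H y V).Nonempty →
      x ∈ V ∨ y ∈ U)
    (u : X → Set X) (uo : ∀ x, IsOpen (u x)) (um : ∀ x, x ∈ u x) (A : Set X) (κ : Cardinal.{u})
    (hκ : ℵ₀ ≤ κ) (hA : #A ≤ κ) : ∃ E : Set X, #E ≤ κ ∧ closure A ⊆ ⋃ e ∈ E, u e := by
  classical
  obtain ⟨_, hwf⟩ := exists_wellOrder X
  obtain ⟨P, hP⟩ : ∃ P : X → Prop, ∀ x, P x ↔ (x ∈ closure A ∧ ∀ y, y < x → P y → x ∉ u y) := by
    refine ⟨(wellFounded_lt (α := X)).fix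
      (fun x (ih : ∀ y, y < x → Prop) => x ∈ closure A ∧ ∀ y (h : y < x), ih y h → x ∉ u y), ?_⟩
    intro x
    rw [WellFounded.fix_eq]
  refine ⟨{x | P x}, ?_, ?_⟩
  swap
  · intro x hx
    by_cases h : P x
    · exact mem_biUnion h (um x)
    · rw [hP] at h
      push Not at h
      obtain ⟨y, -, hy, hxy⟩ := h hx
      exact mem_biUnion hy hxy
  have vo : ∀ x, IsOpen (H x (u x)) := fun x => (h1 x _ (uo x) (um x)).1
  have vm : ∀ x, x ∈ H x (u x) := fun x => (h1 x _ (uo x) (um x)).2.1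
  have vs : ∀ x, H x (u x) ⊆ u x := fun x => (h1 x _ (uo x) (um x)).2.2
  let S : A → Set X := fun a => {x | P x ∧ (a : X) ∈ H x (H x (u x))}
  have hsub : {x | P x} ⊆ ⋃ a, S a := by
    intro x hx
    have hx' := ((hP x).1 hx).1
    obtain ⟨a, ha, haA⟩ := mem_closure_iff.1 hx' _ (h1 x _ (vo x) (vm x)).1
      (h1 x _ (vo x) (vm x)).2.1
    exact mem_iUnion.2 ⟨⟨a, haA⟩, hx, ha⟩
  have hS : ∀ a, #(S a) ≤ κ := by
    intro a
    have key : ∀ x ∈ S a, ∀ z ∈ S a, x < z → x ∈ H z (u z) := by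
      intro x hx z hz hxz
      rcases h2 x _ z _ (vo x) (vm x) (vo z) (vm z) ⟨a, hx.2, hz.2⟩ with h | h
      · exact h
      · exact absurd (vs x h) (((hP z).1 hz.1).2 x hxz hx.1)
    let S' : Set X := {x | x ∈ S a ∧ ∃ z ∈ S a, x < z}
    have hs : ∀ x : S', ∃ s, s ∈ S a ∧ (x : X) < s ∧ ∀ z ∈ S a, (x : X) < z → s ≤ z := by
      intro x
      obtain ⟨z, hz, hxz⟩ := x.2.2
      obtain ⟨s, hs, hmin⟩ := (wellFounded_lt (α := X)).has_min {z | z ∈ S a ∧ (x : X) < z}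
        ⟨z, hz, hxz⟩
      exact ⟨s, hs.1, hs.2, fun w hw hxw => not_lt.1 (hmin w ⟨hw, hxw⟩)⟩
    choose s hsS hxs hsmin using hs
    have hW : ∀ x : S', s x ∈ u (s x) \ closure (H x (u x)) := by
      intro x
      refine ⟨um _, fun h => ?_⟩
      have hne : s x ∈ ({(x : X)}ᶜ : Set X) := fun h => (hxs x).ne' h
      have ho := h1 (s x) _ isOpen_compl_singleton hne
      obtain ⟨p, hp1, hp2⟩ := mem_closure_iff.1 h _ ho.1 ho.2.1
      rcases h2 (s x) _ x _ isOpen_compl_singleton hne (uo x) (um x) ⟨p, hp1, hp2⟩ with h | h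
      · exact ((hP _).1 (hsS x).1).2 x (hxs x) x.2.1.1 h
      · exact h rfl
    have hWo : ∀ x : S', IsOpen (u (s x) \ closure (H x (u x))) :=
      fun x => (uo _).sdiff isClosed_closure
    have hb : ∀ x : S', ∃ b : A, (b : X) ∈ H (s x) (u (s x) \ closure (H x (u x))) := by
      intro x
      have ho := h1 (s x) _ (hWo x) (hW x)
      obtain ⟨p, hp1, hp2⟩ := mem_closure_iff.1 ((hP _).1 (hsS x).1).1 _ ho.1 ho.2.1
      exact ⟨⟨p, hp2⟩, hp1⟩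
    choose b hb using hb
    have hlt : ∀ x x' : S', (x : X) < x' → b x ≠ b x' := by
      intro x x' hxx' he
      have hle : s x ≤ x' := hsmin x _ x'.2.1 hxx'
      rcases h2 (s x) _ (s x') _ (hWo x) (hW x) (hWo x') (hW x') ⟨b x, hb x, he ▸ hb x'⟩ with h | h
      · refine h.2 (subset_closure ?_)
        rcases hle.eq_or_lt with h' | h'
        · rw [h']; exact vm _
        · exact key _ (hsS x) _ x'.2.1 h'
      · exact ((hP _).1 (hsS x').1).2 (s x) (hle.trans_lt (hxs x')) (hsS x).1 h.1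
    have hinj : Function.Injective b := by
      intro x x' he
      rcases lt_trichotomy (x : X) x' with h | h | h
      · exact absurd he (hlt _ _ h)
      · exact Subtype.ext h
      · exact absurd he.symm (hlt _ _ h)
    have hS' : #S' ≤ κ := (mk_le_of_injective hinj).trans hA
    have hrest : (S a \ S').Subsingleton := by
      intro x hx y hy
      rcases lt_trichotomy x y with h | h | h
      · exact absurd ⟨hx.1, y, hy.1, h⟩ hx.2
      · exact h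
      · exact absurd ⟨hy.1, x, hx.1, h⟩ hy.2
    have h1' : #(S a \ S' : Set X) ≤ κ :=
      (Cardinal.le_aleph0_iff_set_countable.2 hrest.countable).trans hκ
    calc #(S a) ≤ #(S' ∪ (S a \ S') : Set X) := mk_le_mk_of_subset (fun x hx => by
            by_cases h : x ∈ S'
            · exact Or.inl h
            · exact Or.inr ⟨hx, h⟩)
      _ ≤ #S' + #(S a \ S' : Set X) := mk_union_le _ _
      _ ≤ κ + κ := add_le_add hS' h1'
      _ = κ := add_eq_self hκ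
  calc #{x | P x} ≤ #(⋃ a, S a) := mk_le_mk_of_subset hsub
    _ ≤ #A * ⨆ a, #(S a) := mk_iUnion_le _
    _ ≤ κ * κ := mul_le_mul' hA (ciSup_le' hS)
    _ = κ := mul_eq_self hκ

theorem result (X : Type u) [TopologicalSpace X] (hX : MonNormal X) (Y : Set X) (hY : Dense Y) :
    lind X ≤ lind Y := by
  classical
  obtain ⟨hT, H, h1, h2⟩ := hX
  have hne : ({κ : Cardinal.{u} | ℵ₀ ≤ κ ∧ ∀ 𝒰 : Set (Set Y), (∀ U ∈ 𝒰, IsOpen U) →
      ⋃₀ 𝒰 = Set.univ → ∃ 𝒱 ⊆ 𝒰, #𝒱 ≤ κ ∧ ⋃₀ 𝒱 = Set.univ}).Nonempty :=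
    ⟨max ℵ₀ #(Set Y), le_max_left _ _, fun 𝒰 _ h =>
      ⟨𝒰, Subset.rfl, (mk_set_le _).trans (le_max_right _ _), h⟩⟩
  obtain ⟨hκ, hcov⟩ := csInf_mem hne
  change ℵ₀ ≤ lind Y at hκ
  change ∀ 𝒰 : Set (Set Y), (∀ U ∈ 𝒰, IsOpen U) →
      ⋃₀ 𝒰 = Set.univ → ∃ 𝒱 ⊆ 𝒰, #𝒱 ≤ lind Y ∧ ⋃₀ 𝒱 = Set.univ at hcov
  refine csInf_le (OrderBot.bddBelow _) ⟨hκ, fun 𝒰 hUo hUc => ?_⟩
  have hu : ∀ x : X, ∃ U ∈ 𝒰, x ∈ U := fun x => by
    have : x ∈ ⋃₀ 𝒰 := hUc ▸ mem_univ x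
    exact this
  choose u uU um using hu
  have uo : ∀ x, IsOpen (u x) := fun x => hUo _ (uU x)
  obtain ⟨𝒱, hVs, hVc, hVu⟩ := hcov
    (range fun x : X => ((↑) : Y → X) ⁻¹' H x (u x))
    (by rintro _ ⟨x, rfl⟩; exact (h1 x _ (uo x) (um x)).1.preimage continuous_subtype_val)
    (eq_univ_of_forall fun y => ⟨_, ⟨y, rfl⟩, (h1 y _ (uo y) (um y)).2.1⟩)
  have ha : ∀ V : 𝒱, ∃ a : X, ((↑) : Y → X) ⁻¹' H a (u a) = V := fun V => hVs V.2
  choose a ha using ha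
  have hA : #(range a) ≤ lind Y := mk_range_le.trans hVc
  obtain ⟨E, hE, hcl⟩ := step2 H h1 h2 u uo um (range a) _ hκ hA
  refine ⟨u '' (E ∪ range a), ?_, ?_, ?_⟩
  · rintro _ ⟨x, -, rfl⟩; exact uU x
  · calc #(u '' (E ∪ range a)) ≤ #(E ∪ range a : Set X) := mk_image_le
      _ ≤ #E + #(range a) := mk_union_le _ _
      _ ≤ lind Y + lind Y := add_le_add hE hA
      _ = lind Y := add_eq_self hκ
  · refine eq_univ_of_forall fun x => ?_
    by_cases hx : x ∈ closure (range a)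
    · obtain ⟨e, he, hxe⟩ := mem_iUnion₂.1 (hcl hx)
      exact ⟨u e, ⟨e, Or.inl he, rfl⟩, hxe⟩
    · have ho := h1 x _ isClosed_closure.isOpen_compl hx
      obtain ⟨y, hyY, hy⟩ := hY.exists_mem_open ho.1 ⟨x, ho.2.1⟩
      obtain ⟨V, hV, hyV⟩ : (⟨y, hyY⟩ : Y) ∈ ⋃₀ 𝒱 := hVu ▸ mem_univ _
      have hy2 : y ∈ H (a ⟨V, hV⟩) (u (a ⟨V, hV⟩)) := by
        have := ha ⟨V, hV⟩
        change (⟨y, hyY⟩ : Y) ∈ ((↑) : Y → X) ⁻¹' H (a ⟨V, hV⟩) (u (a ⟨V, hV⟩))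
        rw [this]; exact hyV
      rcases h2 x _ _ _ isClosed_closure.isOpen_compl hx (uo _) (um _) ⟨y, hy, hy2⟩ with h | h
      · exact ⟨_, ⟨_, Or.inr ⟨_, rfl⟩, rfl⟩, h⟩
      · exact absurd (subset_closure (mem_range_self _)) h

end Pool.Agent.Results.MP_d81239_gt.DenseLindelof
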